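import Pool.Agent.MP_670f9a_nt.H13.Spec2

/-! The resultant of two slices of an integer polynomial in two variables. -/

namespace Pool.Agent.MP_670f9a_nt.H16

open Polynomial Pool.Agent.MP_670f9a_nt.NP

/-- evaluation of an integer polynomial at a complex number -/
noncomputable def ev (y : ℂ) : ℤ[X] →+* ℂ := eval₂RingHom (Int.castRingHom ℂ) y

/-- evaluation of an integer polynomial in two variables -/
noncomputable def ev2 (y z : ℂ) : ℤ[X][X] →+* ℂ :=
  (evalEvalRingHom y z).comp (mapRingHom (mapRingHom (Int.castRingHom ℂ)))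

theorem slice (F : ℤ[X][X]) (y : ℂ) :
    (Bivariate.swap F).map (ev y) = (toC F).eval (C y) := by
  have : (mapRingHom (ev y)).comp (Bivariate.swap (R := ℤ)).toRingEquiv.toRingHom =
      (evalRingHom (C y)).comp (mapRingHom (mapRingHom (Int.castRingHom ℂ))) := by
    refine Polynomial.ringHom_ext' (Polynomial.ringHom_ext' (RingHom.ext_int _ _) ?_) ?_
    · simp [Bivariate.swap_X]
    · simp [Bivariate.swap_Y, ev]
  exact congrArg (fun f : ℤ[X][X] →+* ℂ[X] => f F) this

theorem ev2_C (y z : ℂ) : (ev2 y z).comp C = ev y := by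
  refine Polynomial.ringHom_ext' (RingHom.ext_int _ _) ?_
  simp [ev2, ev]

theorem ev2_mapC (y z : ℂ) : (ev2 y z).comp (mapRingHom C) = ev z := by
  refine Polynomial.ringHom_ext' (RingHom.ext_int _ _) ?_
  simp [ev2, ev]

theorem slice_deg (F : ℤ[X][X]) (L : ℕ) (hL : ∀ j, (F.coeff j).natDegree ≤ L) (y : ℂ) :
    ((toC F).eval (C y)).natDegree ≤ L := by
  rw [eval_eq_sum_range]
  refine natDegree_sum_le_of_forall_le _ _ fun j _ => ?_
  rw [← C_pow, toC, coeff_map]
  exact (natDegree_mul_C_le _ _).trans (natDegree_map_le.trans (hL j))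

theorem sRes : SRes := by
  classical
  intro F L hL hF
  have hF0 : Bivariate.swap F ≠ 0 := by
    intro e
    obtain ⟨v, hv⟩ := hF 0
    refine hv ?_
    rw [evalEval, ← slice, e, Polynomial.map_zero, eval_zero]
  have ha : (Bivariate.swap F).leadingCoeff.map (Int.castRingHom ℂ) ≠ 0 :=
    (Polynomial.map_ne_zero_iff (RingHom.injective_int _)).2 (leadingCoeff_ne_zero.2 hF0)
  set T := ((Bivariate.swap F).leadingCoeff.map (Int.castRingHom ℂ)).roots.toFinset with hT
  have h1 : ∀ y ∉ T, (toC F).eval (C y) ≠ 0 ∧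
      ((toC F).eval (C y)).natDegree = (Bivariate.swap F).natDegree := by
    intro y hy
    have h : ev y (Bivariate.swap F).leadingCoeff ≠ 0 := by
      intro e
      refine hy (Multiset.mem_toFinset.2 ((mem_roots ha).2 ?_))
      rw [IsRoot, eval_map]
      exact e
    rw [← slice]
    refine ⟨fun e => h ?_, natDegree_map_of_leadingCoeff_ne_zero _ h⟩
    rw [← leadingCoeff_map_of_leadingCoeff_ne_zero _ h, e, leadingCoeff_zero]
  have h2 : ∀ y z : ℂ, (toC (resultant ((Bivariate.swap F).map C)
      ((Bivariate.swap F).map (mapRingHom C)) (Bivariate.swap F).natDegree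
      (Bivariate.swap F).natDegree)).evalEval y z = resultant ((toC F).eval (C y))
      ((toC F).eval (C z)) (Bivariate.swap F).natDegree (Bivariate.swap F).natDegree := by
    intro y z
    rw [← slice, ← slice, ← ev2_C y z, ← ev2_mapC y z, ← Polynomial.map_map, ← Polynomial.map_map,
      resultant_map_map]
    rfl
  obtain ⟨z, hz⟩ := Infinite.exists_notMem_finset T
  refine ⟨_, _, T, (h1 z hz).2 ▸ slice_deg F L hL z, fun e => ?_, h1, h2⟩
  obtain ⟨y, hy⟩ := Infinite.exists_notMem_finset (T ∪ ((toC F).eval (C z)).roots.toFinset.biUnion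
    fun u => ((toC F).map (evalRingHom u)).roots.toFinset)
  rw [Finset.mem_union, not_or] at hy
  have h3 := h2 y z
  rw [e, toC, Polynomial.map_zero, evalEval_zero] at h3
  have h4 : IsCoprime ((toC F).eval (C y)) ((toC F).eval (C z)) := by
    rw [Polynomial.isCoprime_iff_aeval_ne_zero_of_isAlgClosed ℂ ℂ]
    intro u
    by_contra hu
    rw [not_or, not_not, not_not, coe_aeval_eq_eval] at hu
    refine hy.2 (Finset.mem_biUnion.2 ⟨u, Multiset.mem_toFinset.2 ((mem_roots (h1 z hz).1).2 hu.2),
      Multiset.mem_toFinset.2 ((mem_roots fun e' => ?_).2 ?_)⟩)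
    · obtain ⟨v, hv⟩ := hF u
      refine hv ?_
      rw [← map_evalRingHom_eval, e', eval_zero]
    · rw [IsRoot, map_evalRingHom_eval]
      exact hu.1
  refine resultant_ne_zero _ _ h4 ?_
  rw [(h1 y hy.1).2, (h1 z hz).2]
  exact h3.symm

end Pool.Agent.MP_670f9a_nt.H16
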